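import Pool.Agent.L7h55.TN.Stm2

/-!
Project TN, part GAU (helper23): the Gauss lemma.
-/

open Polynomial

namespace Pool.Agent.L7h23.TN

open Pool.Agent.L7h55.TN

lemma two_T (A : ℕ) : SP (2 * A + 1) = 2 * T A := by
  unfold SP T
  have h1 : (C (((2 * A + 1 : ℕ) : ℤ) - 1) : ℤ[X]) = 2 * C (A : ℤ) := by
    have : (((2 * A + 1 : ℕ) : ℤ) - 1) = 2 * (A : ℤ) := by push_cast; ring
    rw [this, C_mul]; rfl
  have h2 : (C (((2 * A + 1 : ℕ) : ℤ) + 1) : ℤ[X]) = 2 * C ((A : ℤ) + 1) := by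
    have : (((2 * A + 1 : ℕ) : ℤ) + 1) = 2 * ((A : ℤ) + 1) := by push_cast; ring
    rw [this, C_mul]; rfl
  rw [h1, h2]
  ring

lemma T_coeff (A k : ℕ) : (T A).coeff k =
    (A : ℤ) * ((if k = 2 * A + 2 then 1 else 0) - (if k = 0 then 1 else 0)) -
    ((A : ℤ) + 1) * ((if k = 2 * A + 1 then 1 else 0) - (if 1 = k then 1 else 0)) := by
  unfold T
  rw [coeff_sub, coeff_C_mul, coeff_C_mul, coeff_sub, coeff_sub, coeff_X_pow, coeff_X_pow,
    coeff_one, coeff_X]

lemma T_coeff_top (A : ℕ) : (T A).coeff (2 * A + 2) = A := by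
  rw [T_coeff]
  simp

lemma T_coeff_sub (A : ℕ) (hA : 2 ≤ A) : (T A).coeff (2 * A + 1) = -((A : ℤ) + 1) := by
  rw [T_coeff]
  have h1 : ¬ (1 = 2 * A + 1) := by omega
  have h2 : ¬ (2 * A + 1 = 2 * A + 2) := by omega
  have h3 : ¬ (2 * A + 1 = 0) := by omega
  rw [if_neg h1, if_neg h2, if_neg h3, if_pos rfl]
  ring

lemma T_prim (A : ℕ) (hA : 2 ≤ A) : (T A).IsPrimitive := by
  intro r hr
  rw [C_dvd_iff_dvd_coeff] at hr
  have h1 := hr (2 * A + 2)
  have h2 := hr (2 * A + 1)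
  rw [T_coeff_top A] at h1
  rw [T_coeff_sub A hA] at h2
  have h3 : r ∣ 1 := by
    have := (dvd_neg.mpr h2).sub h1
    simpa using this
  exact isUnit_of_dvd_one h3

lemma L4_monic : L4.Monic := by
  unfold L4
  have h1 : (X - 1 : ℤ[X]).Monic := monic_X_sub_C 1
  have h2 : (X + 1 : ℤ[X]).Monic := monic_X_add_C 1
  exact (h1.pow 3).mul h2

lemma T_natDegree (A : ℕ) (hA : 2 ≤ A) : (T A).natDegree = 2 * A + 2 := by
  apply le_antisymm
  · rw [natDegree_le_iff_coeff_eq_zero]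
    intro k hk
    rw [T_coeff]
    have h1 : ¬ (k = 2 * A + 2) := by omega
    have h2 : ¬ (k = 0) := by omega
    have h3 : ¬ (k = 2 * A + 1) := by omega
    have h4 : ¬ (1 = k) := by omega
    simp [h1, h2, h3, h4]
  · apply le_natDegree_of_ne_zero
    rw [T_coeff_top]
    have : (A : ℤ) ≠ 0 := by positivity
    exact this

lemma L4_natDegree : L4.natDegree = 4 := by
  unfold L4
  have h1 : (X - 1 : ℤ[X]).Monic := monic_X_sub_C 1
  have h2 : (X + 1 : ℤ[X]).Monic := monic_X_add_C 1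
  have h3 : (X - 1 : ℤ[X]).natDegree = 1 := natDegree_X_sub_C 1
  have h4 : (X + 1 : ℤ[X]).natDegree = 1 := natDegree_X_add_C 1
  rw [(h1.pow 3).natDegree_mul h2, h1.natDegree_pow, h3, h4]

theorem s_GAU : S_GAU := by
  intro A P hA h hP
  have hinj : Function.Injective (Int.castRingHom ℚ) := Int.cast_injective
  have hL : L4.map (Int.castRingHom ℚ) = (X - 1) ^ 3 * (X + 1) := by
    unfold L4
    simp
  rw [two_T, ← hL] at h
  have hLd : L4 ∣ T A := by
    rw [← map_dvd_map (Int.castRingHom ℚ) hinj L4_monic]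
    have h2 : (T A).map (Int.castRingHom ℚ) =
        C (1 / 2 : ℚ) * ((2 * T A).map (Int.castRingHom ℚ)) := by
      have : (2 * T A).map (Int.castRingHom ℚ) = C (2 : ℚ) * (T A).map (Int.castRingHom ℚ) := by
        rw [Polynomial.map_mul]
        congr 1
        exact Polynomial.map_ofNat _ 2
      rw [this, ← mul_assoc, ← C_mul]
      norm_num
    rw [h2, ← h]
    exact (dvd_mul_right _ _).mul_left _
  obtain ⟨Q, hQ⟩ := hLd
  have hLne : L4.map (Int.castRingHom ℚ) ≠ 0 := by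
    rw [Ne, Polynomial.map_eq_zero_iff hinj]
    exact L4_monic.ne_zero
  have hPQ : P = C (2 : ℚ) * Q.map (Int.castRingHom ℚ) := by
    apply mul_left_cancel₀ hLne
    rw [h, hQ]
    have : ((2 : ℤ[X])).map (Int.castRingHom ℚ) = C (2 : ℚ) := Polynomial.map_ofNat _ 2
    rw [Polynomial.map_mul, Polynomial.map_mul, this]
    ring
  have hQp : Q.IsPrimitive := isPrimitive_of_dvd (T_prim A hA) (Dvd.intro_left L4 hQ.symm)
  have hQirr : ¬ Irreducible Q := by
    intro hi
    apply hP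
    rw [hPQ]
    have h1 := (IsPrimitive.Int.irreducible_iff_irreducible_map_cast hQp).1 hi
    have h2 : IsUnit (C (2 : ℚ)) := by
      rw [isUnit_C]
      exact isUnit_iff_ne_zero.mpr (by norm_num)
    exact (irreducible_isUnit_mul h2).2 h1
  have hTd := T_natDegree A hA
  have hQ0 : Q ≠ 0 := by
    rintro rfl
    rw [hQ] at hTd
    simp at hTd
  have hQd : Q.natDegree + 4 = 2 * A + 2 := by
    rw [hQ, L4_monic.natDegree_mul' hQ0, L4_natDegree] at hTd
    omega
  have hQu : ¬ IsUnit Q := by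
    intro hu
    have := natDegree_eq_zero_of_isUnit hu
    omega
  rw [irreducible_iff] at hQirr
  push Not at hQirr
  obtain ⟨a, b, hab, ha, hb⟩ := hQirr hQu
  have hlc : (T A).leadingCoeff = A := by
    rw [leadingCoeff, hTd, T_coeff_top]
  have hlcQ : a.leadingCoeff * b.leadingCoeff = A := by
    rw [← leadingCoeff_mul, ← hab, ← hlc, hQ, leadingCoeff_mul, L4_monic.leadingCoeff, one_mul]
  have hap : a.IsPrimitive := isPrimitive_of_dvd hQp (Dvd.intro _ hab.symm)
  have hbp : b.IsPrimitive := isPrimitive_of_dvd hQp (Dvd.intro_left _ hab.symm)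
  have hdeg : ∀ c : ℤ[X], c.IsPrimitive → ¬ IsUnit c → 0 < c.natDegree := by
    intro c hc hcu
    by_contra h0
    have h1 : c.natDegree = 0 := by omega
    apply hcu
    rw [eq_C_of_natDegree_eq_zero h1] at hc ⊢
    rw [isUnit_C]
    exact hc _ (dvd_refl _)
  have hda := hdeg a hap ha
  have hdb := hdeg b hbp hb
  have hApos : (0 : ℤ) < A := by positivity
  rcases lt_trichotomy 0 a.leadingCoeff with h0 | h0 | h0
  · refine ⟨a, b, ?_, hda, hdb, h0, ?_⟩
    · rw [← hab, hQ]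
    · rw [← hlcQ] at hApos
      exact (pos_iff_pos_of_mul_pos hApos).1 h0
  · rw [← h0, zero_mul] at hlcQ
    omega
  · refine ⟨-a, -b, ?_, ?_, ?_, ?_, ?_⟩
    · rw [neg_mul_neg, ← hab, hQ]
    · rw [natDegree_neg]; exact hda
    · rw [natDegree_neg]; exact hdb
    · rw [leadingCoeff_neg]; omega
    · rw [leadingCoeff_neg]
      rw [← hlcQ] at hApos
      have := (neg_iff_neg_of_mul_pos hApos).1 h0
      omega

end Pool.Agent.L7h23.TN
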