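import Pool.Agent.L7h55.TN.Stm2

/-!
Project TN, part PRM (helper23): a root of value less than one.
-/

open Polynomial

namespace Pool.Agent.L7h23.TN

open Pool.Agent.L7h55.TN

lemma coeff_le (R : ValuationSubring ℂ) (s : Multiset ℂ) (h : ∀ r ∈ s, R.valuation r ≤ 1) :
    ∀ i, R.valuation ((s.map (fun r => X - C r)).prod.coeff i) ≤ 1 := by
  induction s using Multiset.induction_on with
  | empty =>
    intro i
    rw [Multiset.map_zero, Multiset.prod_zero, coeff_one]
    split_ifs
    · rw [map_one]
    · rw [map_zero]; exact zero_le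
  | cons a s ih =>
    intro i
    have ih' := ih (fun r hr => h r (Multiset.mem_cons_of_mem hr))
    have ha := h a (Multiset.mem_cons_self a s)
    rw [Multiset.map_cons, Multiset.prod_cons, sub_mul, coeff_sub, coeff_C_mul]
    refine (Valuation.map_sub _ _ _).trans (max_le ?_ ?_)
    · cases i with
      | zero => rw [coeff_X_mul_zero, map_zero]; exact zero_le
      | succ k => rw [coeff_X_mul]; exact ih' k
    · rw [map_mul]; exact mul_le_one' ha (ih' i)

theorem s_PRM : S_PRM := by
  rintro R f hD hf h0 ⟨i, hi⟩
  by_contra hcon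
  push Not at hcon
  set F : ℂ[X] := f.map (Int.castRingHom ℂ) with hF
  have hinj : Function.Injective (Int.castRingHom ℂ) := Int.cast_injective
  have hFne : F ≠ 0 := (Polynomial.map_ne_zero_iff hinj).2 hf
  have hFl : F.leadingCoeff = (f.leadingCoeff : ℂ) := leadingCoeff_map_of_injective hinj f
  have hcard : F.roots.card = F.natDegree := splits_iff_card_roots.1 (IsAlgClosed.splits F)
  have hprod := C_leadingCoeff_mul_prod_multiset_X_sub_C hcard
  have hlne : F.leadingCoeff ≠ 0 := leadingCoeff_ne_zero.2 hFne
  have hF0 : F.coeff 0 = F.leadingCoeff := by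
    rw [hFl, ← h0, hF, coeff_map]
    rfl
  have hroot : ∀ r ∈ F.roots, 1 ≤ R.valuation r := by
    intro r hr
    apply hcon
    have := (mem_roots hFne).1 hr
    rw [IsRoot.def, hF, eval_map] at this
    exact this
  have hP0 : ((F.roots.map (fun a => X - C a)).prod).coeff 0 = 1 := by
    have h1 : F.leadingCoeff * ((F.roots.map (fun a => X - C a)).prod).coeff 0 =
        F.leadingCoeff := by
      rw [← coeff_C_mul, hprod, hF0]
    exact mul_left_cancel₀ hlne (h1.trans (mul_one _).symm)
  have hv : ((F.roots.map (fun a => R.valuation a)).prod) = 1 := by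
    have h2 : R.valuation (((F.roots.map (fun a => X - C a)).prod).coeff 0) = 1 := by
      rw [hP0, map_one]
    rw [coeff_zero_multiset_prod, Multiset.map_map, map_multiset_prod, Multiset.map_map] at h2
    rw [← h2]
    congr 1
    apply Multiset.map_congr rfl
    intro a _
    simp [Valuation.map_neg]
  have hle : ∀ r ∈ F.roots, R.valuation r ≤ 1 := by
    intro r hr
    obtain ⟨t, ht⟩ := Multiset.exists_cons_of_mem hr
    rw [ht, Multiset.map_cons, Multiset.prod_cons] at hv
    have h3 : 1 ≤ (t.map (fun a => R.valuation a)).prod := by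
      apply Multiset.one_le_prod_of_one_le
      intro x hx
      obtain ⟨a, ha, rfl⟩ := Multiset.mem_map.1 hx
      apply hroot
      rw [ht]
      exact Multiset.mem_cons_of_mem ha
    calc R.valuation r = R.valuation r * 1 := (mul_one _).symm
      _ ≤ R.valuation r * (t.map (fun a => R.valuation a)).prod := mul_le_mul_right h3 _
      _ = 1 := hv
  have hc := coeff_le R F.roots hle i
  have h4 : R.valuation (F.coeff i) = R.valuation (F.leadingCoeff) *
      R.valuation (((F.roots.map (fun a => X - C a)).prod).coeff i) := by
    rw [← map_mul, ← coeff_C_mul, hprod]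
  have h5 : R.valuation (F.coeff i) < 1 := by
    rw [h4]
    calc R.valuation (F.leadingCoeff) *
        R.valuation (((F.roots.map (fun a => X - C a)).prod).coeff i)
        ≤ R.valuation (F.leadingCoeff) * 1 := mul_le_mul_right hc _
      _ = R.valuation (F.leadingCoeff) := mul_one _
      _ < 1 := by rw [hFl]; exact hD
  have h6 : F.coeff i = (f.coeff i : ℂ) := by rw [hF, coeff_map]; rfl
  rw [h6, hi] at h5
  exact lt_irrefl _ h5

end Pool.Agent.L7h23.TN
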