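import Pool.Agent.L7h55.TN.Stm3

/-!
Project TN, part RNC (helper23): the factors are coprime modulo primes dividing `n` once.
-/

open Polynomial

namespace Pool.Agent.L7h23.TN

open Pool.Agent.L7h55.TN

lemma geom_sq {R : Type*} [CommRing R] (y : R) (k : ℕ) :
    ∃ v : R, y ^ k - 1 = (k : R) * (y - 1) + (y - 1) ^ 2 * v := by
  induction k with
  | zero => exact ⟨0, by simp⟩
  | succ k ih =>
    obtain ⟨v, hv⟩ := ih
    refine ⟨(k : R) + y * v, ?_⟩
    have h1 : y ^ k = 1 + ((k : R) * (y - 1) + (y - 1) ^ 2 * v) := by rw [← hv]; ring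
    rw [pow_succ, h1]
    push_cast
    ring

lemma ker_mod (r : ℕ) (p : ℤ[X]) (h : p.map (Int.castRingHom (ZMod r)) = 0) :
    ∃ q : ℤ[X], p = C (r : ℤ) * q := by
  have : C (r : ℤ) ∣ p := by
    rw [C_dvd_iff_dvd_coeff]
    intro i
    have h1 : (p.map (Int.castRingHom (ZMod r))).coeff i = 0 := by rw [h, coeff_zero]
    rw [coeff_map] at h1
    exact (ZMod.intCast_zmod_eq_zero_iff_dvd _ _).1 h1
  exact this

lemma lift_mod (r : ℕ) (W p : ℤ[X])
    (h : W.map (Int.castRingHom (ZMod r)) ∣ p.map (Int.castRingHom (ZMod r))) :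
    ∃ p1 p2 : ℤ[X], p = W * p1 + C (r : ℤ) * p2 := by
  obtain ⟨q, hq⟩ := h
  obtain ⟨Q, hQ⟩ := map_surjective (Int.castRingHom (ZMod r)) (ZMod.ringHom_surjective _) q
  obtain ⟨p2, hp2⟩ := ker_mod r (p - W * Q) (by
    rw [Polynomial.map_sub, Polynomial.map_mul, hQ, hq, sub_self])
  exact ⟨Q, p2, by rw [← hp2]; ring⟩

lemma T_eq (A : ℕ) : T A = (C (A : ℤ) * X - C ((A : ℤ) + 1)) * (X ^ (2 * A + 1) - 1) +
    C (2 * (A : ℤ) + 1) * (X - 1) := by
  unfold T
  simp only [C_add, C_mul, C_1]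
  have : (C (2 : ℤ) : ℤ[X]) = 2 := rfl
  rw [this]
  ring

theorem s_RNC (hV : S_VAL1) : S_RNC := by
  intro A r f g hr hA hfac h5 hrn hrn2
  have hrp : r.Prime := hr.out
  obtain ⟨l, hl⟩ := hrn
  have hlr : ¬ r ∣ l := by
    rintro ⟨m, rfl⟩
    exact hrn2 ⟨m, by rw [hl]; ring⟩
  have hcopA : ∀ k : ℕ, k ∣ A ∨ k ∣ A + 1 → k ∣ 2 * A + 1 → k = 1 := by
    intro k hk hk2
    rcases hk with hk | hk
    · have h1 : k ∣ 1 := (Nat.dvd_add_right (hk.mul_left 2)).1 hk2
      exact Nat.dvd_one.1 h1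
    · have h1 : k ∣ (2 * A + 1) + 1 := by
        have : (2 * A + 1) + 1 = 2 * (A + 1) := by ring
        rw [this]; exact hk.mul_left 2
      have h2 : k ∣ 1 := (Nat.dvd_add_right hk2).1 h1
      exact Nat.dvd_one.1 h2
  have hrA : ¬ r ∣ A := fun h => hrp.one_lt.ne' (hcopA r (Or.inl h) ⟨l, hl⟩)
  have hrB : ¬ r ∣ A + 1 := fun h => hrp.one_lt.ne' (hcopA r (Or.inr h) ⟨l, hl⟩)
  have hn0 : ((2 * (A : ℤ) + 1 : ℤ) : ZMod r) = 0 := by
    have : ((2 * A + 1 : ℕ) : ZMod r) = 0 := (ZMod.natCast_eq_zero_iff _ _).2 ⟨l, hl⟩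
    push_cast at this ⊢
    exact this
  set φ := Int.castRingHom (ZMod r) with hφ
  have hAB : φ (A : ℤ) = - φ ((A : ℤ) + 1) := by
    have h1 : φ (A : ℤ) + φ ((A : ℤ) + 1) = 0 := by
      rw [← map_add]
      have : (A : ℤ) + ((A : ℤ) + 1) = 2 * (A : ℤ) + 1 := by ring
      rw [this]
      exact hn0
    exact eq_neg_of_add_eq_zero_left h1
  have hB0 : φ ((A : ℤ) + 1) ≠ 0 := by
    intro h
    apply hrB
    rw [← ZMod.natCast_eq_zero_iff]
    have h2 : (((A : ℤ) + 1 : ℤ) : ZMod r) = 0 := h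
    push_cast at h2 ⊢
    exact h2
  have hTm : (T A).map φ = C (-φ ((A : ℤ) + 1)) * (X + 1) * (X ^ (2 * A + 1) - 1) := by
    rw [T_eq]
    have hn0' : φ (2 * (A : ℤ) + 1) = 0 := hn0
    simp only [Polynomial.map_add, Polynomial.map_mul, Polynomial.map_sub, Polynomial.map_pow,
      map_C, map_X, Polynomial.map_one, hn0', hAB, C_0, zero_mul, add_zero, C_neg]
    ring
  have hLm : L4.map φ = (X - 1) ^ 3 * (X + 1) := by
    unfold L4
    simp
  have hX1 : (X + 1 : (ZMod r)[X]) ≠ 0 := (monic_X_add_C (1 : ZMod r)).ne_zero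
  have hkey : (X - 1) ^ 3 * (f.map φ * g.map φ) =
      C (-φ ((A : ℤ) + 1)) * (X ^ (2 * A + 1) - 1) := by
    have h1 : (L4 * (f * g)).map φ = (T A).map φ := by rw [hfac.eq]
    rw [Polynomial.map_mul, Polynomial.map_mul, hLm, hTm] at h1
    apply mul_left_cancel₀ hX1
    linear_combination h1
  have hnz : (X ^ (2 * A + 1) - 1 : (ZMod r)[X]) ≠ 0 :=
    (monic_X_pow_sub_C (1 : ZMod r) (by omega)).ne_zero
  have hCne : (C (-φ ((A : ℤ) + 1)) : (ZMod r)[X]) ≠ 0 := by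
    rw [Ne, C_eq_zero]
    exact neg_ne_zero.2 hB0
  refine isCoprime_of_prime_dvd ?_ ?_
  · rintro ⟨h1, -⟩
    rw [h1, zero_mul, mul_zero] at hkey
    exact mul_ne_zero hCne hnz hkey.symm
  · intro w hw hwf hwg
    have hw1 : w ∣ X ^ l - 1 := by
      have h1 : w ∣ C (-φ ((A : ℤ) + 1)) * (X ^ (2 * A + 1) - 1) := by
        rw [← hkey]
        exact (hwf.mul_right _).mul_left _
      have h2 : w ∣ X ^ (2 * A + 1) - 1 := by
        rcases hw.dvd_or_dvd h1 with h3 | h3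
        · exfalso
          apply hw.not_isUnit
          apply isUnit_of_dvd_unit h3
          rw [isUnit_C]
          exact isUnit_iff_ne_zero.2 (neg_ne_zero.2 hB0)
        · exact h3
      have h3 : (X ^ (2 * A + 1) - 1 : (ZMod r)[X]) = (X ^ l - 1) ^ r := by
        rw [sub_pow_char (p := r), one_pow, ← pow_mul, hl, mul_comm l r]
      rw [h3] at h2
      exact hw.dvd_of_dvd_pow h2
    obtain ⟨W, hW⟩ := map_surjective φ (ZMod.ringHom_surjective _) w
    obtain ⟨f1, f2, hf⟩ := lift_mod r W f (by rw [← hφ, hW]; exact hwf)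
    obtain ⟨g1, g2, hg⟩ := lift_mod r W g (by rw [← hφ, hW]; exact hwg)
    obtain ⟨u1, u2, hu⟩ := lift_mod r W (X ^ l - 1) (by
      rw [← hφ, hW, Polynomial.map_sub, Polynomial.map_pow, map_X, Polynomial.map_one]
      exact hw1)
    obtain ⟨v, hv⟩ := geom_sq (X ^ l : ℤ[X]) r
    have hrC : ((r : ℤ[X])) = C (r : ℤ) := by simp
    rw [← pow_mul, mul_comm l r, ← hl, hu, hrC] at hv
    have h1 := T_eq A
    rw [← hfac.eq, hf, hg, hv] at h1
    have hnl : (C (2 * (A : ℤ) + 1) : ℤ[X]) = C (r : ℤ) * C (l : ℤ) := by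
      rw [← C_mul]
      congr 1
      exact_mod_cast hl
    set a : ℤ[X] := L4 * f1 * g1 - (C (A : ℤ) * X - C ((A : ℤ) + 1)) * u1 ^ 2 * v with ha
    set b : ℤ[X] := L4 * (f1 * g2 + f2 * g1) -
      (C (A : ℤ) * X - C ((A : ℤ) + 1)) * (u1 + 2 * u1 * u2 * v) with hb
    set c : ℤ[X] := L4 * f2 * g2 - (C (A : ℤ) * X - C ((A : ℤ) + 1)) * (u2 + u2 ^ 2 * v) with hc
    have h2 : C (r : ℤ) * C (l : ℤ) * (X - 1) =
        W ^ 2 * a + C (r : ℤ) * W * b + C (r : ℤ) ^ 2 * c := by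
      rw [← hnl, ha, hb, hc]
      linear_combination -h1
    have hr0 : φ (r : ℤ) = 0 := by
      show (((r : ℤ)) : ZMod r) = 0
      simp
    have h3 : a.map φ = 0 := by
      have h4 : (C (r : ℤ) * C (l : ℤ) * (X - 1)).map φ =
        (W ^ 2 * a + C (r : ℤ) * W * b + C (r : ℤ) ^ 2 * c).map φ := by rw [h2]
      simp only [Polynomial.map_add, Polynomial.map_mul, Polynomial.map_pow, map_C, hr0, C_0,
        zero_mul, add_zero, hW, ne_eq, OfNat.ofNat_ne_zero, not_false_eq_true, zero_pow] at h4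
      have h5 := h4.symm
      rcases mul_eq_zero.1 h5 with h6 | h6
      · exact absurd (pow_eq_zero_iff (two_ne_zero)|>.1 h6) hw.ne_zero
      · exact h6
    obtain ⟨a', ha'⟩ := ker_mod r a h3
    have hrne : (C (r : ℤ) : ℤ[X]) ≠ 0 := by
      rw [Ne, C_eq_zero]
      exact_mod_cast hrp.ne_zero
    have h4 : C (l : ℤ) * (X - 1) = W ^ 2 * a' + W * b + C (r : ℤ) * c := by
      apply mul_left_cancel₀ hrne
      rw [ha'] at h2
      linear_combination h2
    have h5 : w ∣ C (φ (l : ℤ)) * (X - 1) := by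
      have h6 : (C (l : ℤ) * (X - 1)).map φ = (W ^ 2 * a' + W * b + C (r : ℤ) * c).map φ := by
        rw [h4]
      simp only [Polynomial.map_add, Polynomial.map_mul, Polynomial.map_pow, map_C, hr0, C_0,
        zero_mul, add_zero, hW, Polynomial.map_sub, map_X, Polynomial.map_one] at h6
      rw [h6]
      exact ⟨w * a'.map φ + b.map φ, by ring⟩
    have hl0 : φ (l : ℤ) ≠ 0 := by
      intro h
      apply hlr
      rw [← ZMod.natCast_eq_zero_iff]
      have h7 : (((l : ℤ)) : ZMod r) = 0 := h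
      push_cast at h7
      exact h7
    have h6 : w ∣ X - C 1 := by
      rcases hw.dvd_or_dvd h5 with h7 | h7
      · exfalso
        apply hw.not_isUnit
        apply isUnit_of_dvd_unit h7
        rw [isUnit_C]
        exact isUnit_iff_ne_zero.2 hl0
      · rw [C_1]; exact h7
    have h7 : X - C 1 ∣ w := hw.irreducible.dvd_symm (irreducible_X_sub_C 1) h6
    have hev : ∀ p : ℤ[X], w ∣ p.map φ → (r : ℤ) ∣ p.eval 1 := by
      intro p hp
      have h8 : (p.map φ).eval 1 = 0 := dvd_iff_isRoot.1 (h7.trans hp)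
      rw [eval_one_map] at h8
      exact (ZMod.intCast_zmod_eq_zero_iff_dvd _ _).1 h8
    obtain ⟨x, hx⟩ := hev f hwf
    obtain ⟨y, hy⟩ := hev g hwg
    have h8 := (hV A f g hA hfac).1
    rw [hx, hy] at h8
    have h9 : ((r : ℤ)) ^ 2 ∣ ((A : ℤ) * (A + 1)) * (2 * A + 1) := by
      rw [← h8]
      exact ⟨6 * (x * y), by ring⟩
    have h10 : r ^ 2 ∣ (A * (A + 1)) * (2 * A + 1) := by exact_mod_cast h9
    have h11 : Nat.Coprime (r ^ 2) (A * (A + 1)) := by
      apply Nat.Coprime.pow_left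
      rw [Nat.coprime_mul_iff_right, hrp.coprime_iff_not_dvd, hrp.coprime_iff_not_dvd]
      exact ⟨hrA, hrB⟩
    exact hrn2 (h11.dvd_of_dvd_mul_left h10)

end Pool.Agent.L7h23.TN
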